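import Mathlib

set_option autoImplicit false

open Set Filter

namespace Pool.Agent.H393Z.OT

variable {T : Type} [LinearOrder T]

/-- Membership in the lattice generated by the open rays, the empty set and the whole chain. -/
def InO (U : Set T) : Prop :=
  ∀ S : Set (Set T), ∅ ∈ S → Set.univ ∈ S →
    (∀ a : T, Set.Iio a ∈ S ∧ Set.Ioi a ∈ S) →
    (∀ A ∈ S, ∀ B ∈ S, A ∪ B ∈ S) →
    (∀ A ∈ S, ∀ B ∈ S, A ∩ B ∈ S) → U ∈ S

lemma InO.empty : InO (∅ : Set T) := fun _ h _ _ _ _ => h
lemma InO.univ : InO (univ : Set T) := fun _ _ h _ _ _ => h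
lemma InO.iio (a : T) : InO (Iio a) := fun _ _ _ h _ _ => (h a).1
lemma InO.ioi (a : T) : InO (Ioi a) := fun _ _ _ h _ _ => (h a).2
lemma InO.union {A B : Set T} (hA : InO A) (hB : InO B) : InO (A ∪ B) :=
  fun S h1 h2 h3 h4 h5 => h4 _ (hA S h1 h2 h3 h4 h5) _ (hB S h1 h2 h3 h4 h5)
lemma InO.inter {A B : Set T} (hA : InO A) (hB : InO B) : InO (A ∩ B) :=
  fun S h1 h2 h3 h4 h5 => h5 _ (hA S h1 h2 h3 h4 h5) _ (hB S h1 h2 h3 h4 h5)

lemma InO.ioo (a b : T) : InO (Ioo a b) := by
  have := (InO.ioi a).inter (InO.iio b)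
  rwa [Set.Ioi_inter_Iio] at this

lemma InO.biUnion {ι : Type} (s : Finset ι) (f : ι → Set T) (h : ∀ i ∈ s, InO (f i)) :
    InO (⋃ i ∈ s, f i) := by
  classical
  induction s using Finset.induction_on with
  | empty => simpa using InO.empty
  | insert a s _ ih =>
    rw [Finset.set_biUnion_insert]
    exact (h a (Finset.mem_insert_self _ _)).union
      (ih fun i hi => h i (Finset.mem_insert_of_mem hi))

lemma InO.biInter {ι : Type} (s : Finset ι) (f : ι → Set T) (h : ∀ i ∈ s, InO (f i)) :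
    InO (⋂ i ∈ s, f i) := by
  classical
  induction s using Finset.induction_on with
  | empty => simpa using InO.univ
  | insert a s _ ih =>
    rw [Finset.set_biInter_insert]
    exact (h a (Finset.mem_insert_self _ _)).inter
      (ih fun i hi => h i (Finset.mem_insert_of_mem hi))

/-- A member of the lattice is constant on intervals avoiding a finite set. -/
lemma InO.fin {U : Set T} (hU : InO U) :
    ∃ F : Finset T, ∀ x y : T, x ≤ y → (∀ e ∈ F, e ∉ Icc x y) → (x ∈ U ↔ y ∈ U) := by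
  classical
  refine hU {U | ∃ F : Finset T, ∀ x y : T, x ≤ y → (∀ e ∈ F, e ∉ Icc x y) → (x ∈ U ↔ y ∈ U)}
    ⟨∅, by simp⟩ ⟨∅, by simp⟩ ?_ ?_ ?_
  · intro a
    constructor
    · refine ⟨{a}, fun x y hxy h => ?_⟩
      have := h a (by simp)
      simp only [mem_Icc, not_and_or, not_le, mem_Iio] at this ⊢
      rcases this with h | h
      · exact ⟨fun h' => absurd h' (not_lt.2 h.le), fun h' => lt_of_le_of_lt hxy h'⟩
      · exact ⟨fun _ => h, fun _ => lt_of_le_of_lt hxy h⟩
    · refine ⟨{a}, fun x y hxy h => ?_⟩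
      have := h a (by simp)
      simp only [mem_Icc, not_and_or, not_le, mem_Ioi] at this ⊢
      rcases this with h | h
      · exact ⟨fun _ => lt_of_lt_of_le h hxy, fun _ => h⟩
      · exact ⟨fun h' => lt_of_lt_of_le h' hxy, fun h' => absurd h' (not_lt.2 h.le)⟩
  · rintro A ⟨F, hF⟩ B ⟨G, hG⟩
    refine ⟨F ∪ G, fun x y hxy h => ?_⟩
    have h1 := hF x y hxy fun e he => h e (Finset.mem_union_left _ he)
    have h2 := hG x y hxy fun e he => h e (Finset.mem_union_right _ he)
    simp only [mem_union, h1, h2]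
  · rintro A ⟨F, hF⟩ B ⟨G, hG⟩
    refine ⟨F ∪ G, fun x y hxy h => ?_⟩
    have h1 := hF x y hxy fun e he => h e (Finset.mem_union_left _ he)
    have h2 := hG x y hxy fun e he => h e (Finset.mem_union_right _ he)
    simp only [mem_inter_iff, h1, h2]

/-- Two sided countable character, with every point a two sided limit. -/
structure FC (T : Type) [LinearOrder T] where
  l : T → ℕ → T
  r : T → ℕ → T
  l_lt : ∀ x n, l x n < x
  lt_r : ∀ x n, x < r x n
  ev_l : ∀ x y, y < x → ∀ᶠ n in atTop, y < l x n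
  ev_r : ∀ x y, x < y → ∀ᶠ n in atTop, r x n < y

lemma InO.opn (c : FC T) {U : Set T} (hU : InO U) :
    ∀ x ∈ U, ∀ᶠ n in atTop, Ioo (c.l x n) (c.r x n) ⊆ U := by
  refine hU {U | ∀ x ∈ U, ∀ᶠ n in atTop, Ioo (c.l x n) (c.r x n) ⊆ U}
    (by simp) (by simp) ?_ ?_ ?_
  · intro a
    constructor
    · intro x hx
      filter_upwards [c.ev_r x a hx] with n hn y hy
      exact lt_trans hy.2 hn
    · intro x hx
      filter_upwards [c.ev_l x a hx] with n hn y hy
      exact lt_trans hn hy.1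
  · intro A hA B hB x hx
    rcases hx with hx | hx
    · filter_upwards [hA x hx] with n hn using hn.trans subset_union_left
    · filter_upwards [hB x hx] with n hn using hn.trans subset_union_right
  · intro A hA B hB x hx
    filter_upwards [hA x hx.1, hB x hx.2] with n h1 h2 using subset_inter h1 h2

/-- Countably based differences. -/
lemma cbd (c : FC T) (a b : Set T) (ha : InO a) (hb : InO b) :
    ∃ C : Set (Set T), C.Countable ∧ (∀ d ∈ C, InO d ∧ a ⊆ b ∪ d) ∧
      ∀ x, InO x → a ⊆ b ∪ x → ∃ d ∈ C, d ⊆ x := by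
  classical
  obtain ⟨Fa, hFa⟩ := ha.fin
  obtain ⟨Fb, hFb⟩ := hb.fin
  set F : Finset T := Fa ∪ Fb with hF
  let comp : Finset T → Set T := fun S => (⋂ e ∈ S, Ioi e) ∩ (⋂ e ∈ F \ S, Iio e)
  let K : Set T := ⋃ S ∈ F.powerset.filter (fun S => comp S ⊆ a \ b), comp S
  let d : ℕ → Set T := fun n => (⋃ e ∈ F.filter (fun e => e ∈ a \ b), Ioo (c.l e n) (c.r e n)) ∪ K
  have hK : InO K := InO.biUnion _ _ fun S _ =>
    (InO.biInter _ _ fun e _ => InO.ioi e).inter (InO.biInter _ _ fun e _ => InO.iio e)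
  refine ⟨range d, countable_range d, ?_, ?_⟩
  · rintro _ ⟨n, rfl⟩
    refine ⟨(InO.biUnion _ _ fun e _ => InO.ioo _ _).union hK, ?_⟩
    intro x hx
    by_cases hxb : x ∈ b
    · exact Or.inl hxb
    right
    by_cases hxF : x ∈ F
    · left
      simp only [mem_iUnion, exists_prop]
      exact ⟨x, Finset.mem_filter.2 ⟨hxF, hx, hxb⟩, c.l_lt x n, c.lt_r x n⟩
    · right
      simp only [K, mem_iUnion, exists_prop]
      have hmem : ∀ y, y ∈ comp (F.filter (· < x)) ↔
          ∀ e ∈ F, (e < x → e < y) ∧ (¬ e < x → y < e) := by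
        intro y
        simp only [comp, mem_inter_iff, mem_iInter, Finset.mem_filter, mem_Ioi, Finset.mem_sdiff,
          mem_Iio]
        constructor
        · rintro ⟨h1, h2⟩ e he
          exact ⟨fun h => h1 e ⟨he, h⟩, fun h => h2 e ⟨he, fun h' => h h'.2⟩⟩
        · intro h
          exact ⟨fun e he => (h e he.1).1 he.2, fun e he => (h e he.1).2 fun h' => he.2 ⟨he.1, h'⟩⟩
      refine ⟨F.filter (· < x), Finset.mem_filter.2 ⟨Finset.mem_powerset.2
        (Finset.filter_subset _ _), ?_⟩, ?_⟩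
      · intro y hy
        rw [hmem] at hy
        rcases le_total x y with hxy | hxy
        · have hav : ∀ e ∈ F, e ∉ Icc x y := by
            intro e he hI
            exact absurd ((hy e he).2 (not_lt.2 hI.1)) (not_lt.2 hI.2)
          exact ⟨(hFa x y hxy fun e he => hav e (Finset.mem_union_left _ he)).1 hx,
            fun h => hxb ((hFb x y hxy fun e he => hav e (Finset.mem_union_right _ he)).2 h)⟩
        · have hav : ∀ e ∈ F, e ∉ Icc y x := by
            intro e he hI
            have hne : e ≠ x := fun h => hxF (h ▸ he)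
            exact absurd ((hy e he).1 (lt_of_le_of_ne hI.2 hne)) (not_lt.2 hI.1)
          exact ⟨(hFa y x hxy fun e he => hav e (Finset.mem_union_left _ he)).2 hx,
            fun h => hxb ((hFb y x hxy fun e he => hav e (Finset.mem_union_right _ he)).1 h)⟩
      · rw [hmem]
        intro e he
        refine ⟨id, fun h => lt_of_le_of_ne (not_lt.1 h) ?_⟩
        exact fun h' => hxF (h' ▸ he)
  · intro X hX hsub
    have hsub' : a \ b ⊆ X := fun y hy => (hsub hy.1).resolve_left hy.2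
    have hev : ∀ᶠ n in atTop, ∀ e ∈ F.filter (fun e => e ∈ a \ b), Ioo (c.l e n) (c.r e n) ⊆ X := by
      rw [Filter.eventually_all_finset]
      intro e he
      exact hX.opn c e (hsub' (Finset.mem_filter.1 he).2)
    obtain ⟨n, hn⟩ := hev.exists
    refine ⟨d n, mem_range_self n, union_subset ?_ ?_⟩
    · exact iUnion₂_subset hn
    · exact iUnion₂_subset fun S hS => (Finset.mem_filter.1 hS).2.trans hsub'

/-- First exit from a member of the lattice. -/
lemma InO.exit (c : FC T) {U : Set T} (hU : InO U) {a b : T} (hab : a < b) (ha : a ∈ U)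
    (hb : b ∉ U) : ∃ p, a < p ∧ p ≤ b ∧ p ∉ U ∧ Ico a p ⊆ U := by
  classical
  obtain ⟨F, hF⟩ := hU.fin
  let G : Finset T := (insert b F).filter (fun e => a ≤ e ∧ e ≤ b ∧ ¬ Icc a e ⊆ U)
  have hG : G.Nonempty := ⟨b, Finset.mem_filter.2 ⟨Finset.mem_insert_self _ _, hab.le, le_rfl,
    fun h => hb (h ⟨hab.le, le_rfl⟩)⟩⟩
  set p := G.min' hG with hp
  obtain ⟨-, hap, hpb, hpU⟩ := Finset.mem_filter.1 (G.min'_mem hG)
  rw [← hp] at hap hpb hpU
  have key : Ico a p ⊆ U := by
    intro y hy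
    let G' : Finset T := (insert a F).filter (fun e => a ≤ e ∧ e ≤ y)
    have hG' : G'.Nonempty := ⟨a, Finset.mem_filter.2 ⟨Finset.mem_insert_self _ _, le_rfl, hy.1⟩⟩
    set q := G'.max' hG' with hq
    obtain ⟨hqF, haq, hqy⟩ := Finset.mem_filter.1 (G'.max'_mem hG')
    rw [← hq] at hqF haq hqy
    have hqU : q ∈ U := by
      rcases Finset.mem_insert.1 hqF with h | h
      · exact h ▸ ha
      · by_contra hq'
        have : q ∈ G := Finset.mem_filter.2 ⟨Finset.mem_insert_of_mem h, haq,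
          hqy.trans (hy.2.le.trans hpb), fun h' => hq' (h' ⟨haq, le_rfl⟩)⟩
        exact absurd (G.min'_le q this) (not_le.2 (lt_of_le_of_lt hqy hy.2))
    rcases eq_or_lt_of_le hqy with h | h
    · exact h ▸ hqU
    · obtain ⟨n, hn⟩ := (hU.opn c q hqU).exists
      obtain ⟨m, hm1, hm2⟩ := ((c.ev_r q y h).and (c.ev_r q _ (c.lt_r q n))).exists
      have hz : c.r q m ∈ U := hn ⟨(c.l_lt q n).trans (c.lt_r q m), hm2⟩
      refine (hF _ y hm1.le ?_).1 hz
      intro e he hI
      have : e ∈ G' := Finset.mem_filter.2 ⟨Finset.mem_insert_of_mem he,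
        haq.trans ((c.lt_r q m).le.trans hI.1), hI.2⟩
      exact absurd (G'.le_max' e this) (not_le.2 (lt_of_lt_of_le (c.lt_r q m) hI.1))
  have hpU' : p ∉ U := by
    intro h
    apply hpU
    intro y hy
    rcases eq_or_lt_of_le hy.2 with h' | h'
    · exact h' ▸ h
    · exact key ⟨hy.1, h'⟩
  refine ⟨p, lt_of_le_of_ne hap ?_, hpb, hpU', key⟩
  exact fun h => hpU' (h ▸ ha)

/-- A group of real functions on the chain, as supplied by a representation. -/
structure Rep (T : Type) [LinearOrder T] where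
  G : AddSubgroup (T → ℝ)
  one_mem : (fun _ => (1 : ℝ)) ∈ G
  pos : ∀ g ∈ G, InO {x | 0 < g x}
  ray : ∀ a : T, ∃ g ∈ G, ∀ x, 0 ≤ g x ∧ (0 < g x ↔ a < x)
  bdd : ∀ f ∈ G, ∀ a y : T, (∀ x ∈ Icc a y, f x < 0) → ∃ ε : ℝ, 0 < ε ∧ ∀ x ∈ Icc a y, f x ≤ -ε

end Pool.Agent.H393Z.OT
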