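import Pool.Agent.H393Z.OT.Basic

set_option autoImplicit false

open Set Filter

namespace Pool.Agent.H393Z.OT

/-- Hölder type lemma for a total preorder on an Abelian group. -/
lemma holder {G : Type} [AddCommGroup G] (pos : G → Prop) (h1 : ∀ g, pos g → ¬ pos (-g))
    (h2 : ∀ g h, pos (g + h) → pos g ∨ pos h) (u : G) (hu : pos u)
    (harch : ∀ g h, pos g → ∃ n : ℕ, ¬ pos (h - n • g)) :
    ∃ f : G →+ ℝ, f u = 1 ∧ ∀ g, pos g ↔ 0 < f g := by
  classical
  have h0 : ¬ pos 0 := fun h => h1 0 h (by simpa using h)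
  let Z : AddSubgroup G :=
    { carrier := {g | ¬ pos g ∧ ¬ pos (-g)}
      add_mem' := by
        rintro a b ⟨ha, ha'⟩ ⟨hb, hb'⟩
        refine ⟨fun h => (h2 _ _ h).elim ha hb, fun h => ?_⟩
        rw [neg_add] at h
        exact (h2 _ _ h).elim ha' hb'
      zero_mem' := ⟨h0, by simpa using h0⟩
      neg_mem' := by
        rintro a ⟨ha, ha'⟩
        exact ⟨ha', by simpa using ha⟩ }
  let π : G →+ G ⧸ Z := QuotientAddGroup.mk' Z
  have hπ : Function.Surjective π := QuotientAddGroup.mk'_surjective Z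
  have hcongr : ∀ a b, π a = π b → pos a → pos b := by
    intro a b hab ha
    have hz : a - b ∈ Z := by
      rw [← QuotientAddGroup.eq_zero_iff]
      show π (a - b) = 0
      rw [map_sub, hab, sub_self]
    have : pos (b + (a - b)) := by simpa using ha
    exact (h2 _ _ this).resolve_right hz.1
  let C : AddGroupCone (G ⧸ Z) :=
    { carrier := {q | ∃ g, π g = q ∧ ¬ pos (-g)}
      add_mem' := by
        rintro _ _ ⟨a, rfl, ha⟩ ⟨b, rfl, hb⟩
        refine ⟨a + b, map_add _ _ _, fun h => ?_⟩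
        rw [neg_add] at h
        exact (h2 _ _ h).elim ha hb
      zero_mem' := ⟨0, map_zero _, by simpa using h0⟩
      eq_zero_of_mem_of_neg_mem' := by
        rintro _ ⟨a, rfl, ha⟩ ⟨b, hb, hb'⟩
        have : ¬ pos a := fun h => hb' (hcongr a (-b) (by rw [map_neg, hb, neg_neg]) h)
        exact (QuotientAddGroup.eq_zero_iff a).2 ⟨this, ha⟩ }
  have hC : ∀ g, π g ∈ C ↔ ¬ pos (-g) := by
    intro g
    constructor
    · rintro ⟨a, ha, ha'⟩ h
      exact ha' (hcongr (-g) (-a) (by rw [map_neg, map_neg, ha]) h)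
    · exact fun h => ⟨g, rfl, h⟩
  have : HasMemOrNegMem C := ⟨by
    intro q
    obtain ⟨g, rfl⟩ := hπ q
    rw [← map_neg, hC, hC, neg_neg]
    by_cases h : pos g
    · exact Or.inl (h1 g h)
    · exact Or.inr h⟩
  let : LinearOrder (G ⧸ Z) := LinearOrder.mkOfAddGroupCone C
  have : IsOrderedAddMonoid (G ⧸ Z) := IsOrderedAddMonoid.mkOfCone C
  have hle : ∀ a b : G, π a ≤ π b ↔ ¬ pos (a - b) := by
    intro a b
    show π b - π a ∈ C ↔ _
    rw [← map_sub, hC, neg_sub]
  have hpos : ∀ g, 0 < π g ↔ pos g := by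
    intro g
    rw [← not_le, ← map_zero π, hle, sub_zero, not_not]
  have : Archimedean (G ⧸ Z) := ⟨by
    intro x y hy
    obtain ⟨h, rfl⟩ := hπ x
    obtain ⟨g, rfl⟩ := hπ y
    obtain ⟨n, hn⟩ := harch g h ((hpos g).1 hy)
    exact ⟨n, by rw [← map_nsmul, hle]; exact hn⟩⟩
  obtain ⟨f, hf⟩ := Archimedean.exists_orderAddMonoidHom_real_injective (G ⧸ Z)
  have hsm : StrictMono f := (OrderHomClass.mono f).strictMono_of_injective hf
  have hfp : ∀ g, pos g ↔ 0 < f (π g) := by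
    intro g
    rw [← hpos, ← map_zero f, hsm.lt_iff_lt]
  have hc : 0 < f (π u) := (hfp u).1 hu
  refine ⟨(AddMonoidHom.mulRight (f (π u))⁻¹).comp ((f : G ⧸ Z →+ ℝ).comp π), ?_, ?_⟩
  · simp [hc.ne']
  · intro g
    rw [hfp]
    simp [hc]

section
variable {G : Type} [AddCommGroup G] [Lattice G] [IsOrderedAddMonoid G]

lemma inf_add_le' {x y z : G} (hx : 0 ≤ x) (hy : 0 ≤ y) (hz : 0 ≤ z) :
    x ⊓ (y + z) ≤ x ⊓ y + x ⊓ z := by
  rw [add_inf, inf_add, inf_add]
  refine le_inf (le_inf ?_ ?_) (le_inf ?_ ?_)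
  · exact inf_le_left.trans (le_add_of_nonneg_right hx)
  · exact inf_le_left.trans (le_add_of_nonneg_left hy)
  · exact inf_le_left.trans (le_add_of_nonneg_right hz)
  · exact inf_le_right

lemma inf_nsmul_zero {x y : G} (hx : 0 ≤ x) (hy : 0 ≤ y) (h : x ⊓ y = 0) (n : ℕ) :
    x ⊓ (n • y) = 0 := by
  induction n with
  | zero => simpa using hx
  | succ n ih =>
    apply le_antisymm
    · rw [succ_nsmul]
      have := inf_add_le' hx (nsmul_nonneg hy n) hy
      rwa [ih, h, add_zero] at this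
    · exact le_inf hx (nsmul_nonneg hy _)

lemma posPart_add_le' (a b : G) : (a + b)⁺ ≤ a⁺ + b⁺ := by
  rw [posPart_def]
  exact sup_le (add_le_add (le_posPart a) (le_posPart b))
    (add_nonneg (posPart_nonneg a) (posPart_nonneg b))
end

/-- A representation of the lattice by principal ideals gives a group of real functions. -/
lemma rep_of_iso {T : Type} [LinearOrder T] (O : Set (Set T)) (hO : ∀ U, U ∈ O ↔ InO U)
    {G : Type} [AddCommGroup G] [Lattice G] [IsOrderedAddMonoid G]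
    (e : O ≃o {I : Set G // ∃ a : G, I = {x : G | ∃ n : ℕ, |x| ≤ n • |a|}}) :
    Nonempty (Rep T) := by
  classical
  let φ : G → Set T := fun a => (e.symm ⟨{x : G | ∃ n : ℕ, |x| ≤ n • |a|}, a, rfl⟩ : O).1
  have φO : ∀ a, InO (φ a) := fun a => (hO _).1 (e.symm _).2
  have φle : ∀ a b, φ a ⊆ φ b ↔ ∃ n : ℕ, |a| ≤ n • |b| := by
    intro a b
    have h1 : φ a ⊆ φ b ↔ (⟨{x : G | ∃ n : ℕ, |x| ≤ n • |a|}, a, rfl⟩ :
        {I : Set G // ∃ a : G, I = {x : G | ∃ n : ℕ, |x| ≤ n • |a|}}) ≤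
        ⟨{x : G | ∃ n : ℕ, |x| ≤ n • |b|}, b, rfl⟩ := e.symm.le_iff_le
    rw [h1]
    show {x : G | ∃ n : ℕ, |x| ≤ n • |a|} ⊆ {x : G | ∃ n : ℕ, |x| ≤ n • |b|} ↔ _
    constructor
    · intro h
      exact h (show a ∈ {x : G | ∃ n : ℕ, |x| ≤ n • |a|} from ⟨1, by simp⟩)
    · rintro ⟨n, hn⟩ x ⟨m, hm⟩
      exact ⟨m * n, hm.trans (by rw [mul_nsmul']; exact nsmul_le_nsmul_right hn m)⟩
  have φsurj : ∀ U, InO U → ∃ a, 0 ≤ a ∧ φ a = U := by
    intro U hU
    obtain ⟨a, ha⟩ := (e ⟨U, (hO U).2 hU⟩).2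
    refine ⟨|a|, abs_nonneg a, ?_⟩
    have : (⟨{x : G | ∃ n : ℕ, |x| ≤ n • |(|a|)|}, |a|, rfl⟩ :
        {I : Set G // ∃ a : G, I = {x : G | ∃ n : ℕ, |x| ≤ n • |a|}}) = e ⟨U, (hO U).2 hU⟩ := by
      apply Subtype.ext
      rw [ha]
      simp only [abs_abs]
    simp only [φ]
    rw [this, e.symm_apply_apply]
  have φmono : ∀ a b, 0 ≤ a → a ≤ b → φ a ⊆ φ b := by
    intro a b ha hab
    rw [φle]
    exact ⟨1, by rw [one_nsmul, abs_of_nonneg ha, abs_of_nonneg (ha.trans hab)]; exact hab⟩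
  have φzero : φ 0 = ∅ := by
    obtain ⟨d, -, hd⟩ := φsurj ∅ InO.empty
    exact subset_eq_empty ((φle 0 d).2 ⟨0, by simp⟩) hd
  have φadd : ∀ a b, φ (a + b) ⊆ φ a ∪ φ b := by
    intro a b
    obtain ⟨c, -, hc⟩ := φsurj _ ((φO a).union (φO b))
    obtain ⟨n, hn⟩ := (φle a c).1 (hc ▸ subset_union_left)
    obtain ⟨m, hm⟩ := (φle b c).1 (hc ▸ subset_union_right)
    rw [← hc, φle]
    exact ⟨n + m, (abs_add_le a b).trans (by rw [add_nsmul]; exact add_le_add hn hm)⟩
  have φdisj : ∀ a b, 0 ≤ a → 0 ≤ b → a ⊓ b = 0 → φ a ∩ φ b = ∅ := by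
    intro a b ha hb hab
    obtain ⟨c, hc0, hc⟩ := φsurj _ ((φO a).inter (φO b))
    obtain ⟨n, hn⟩ := (φle c a).1 (hc ▸ inter_subset_left)
    obtain ⟨m, hm⟩ := (φle c b).1 (hc ▸ inter_subset_right)
    rw [abs_of_nonneg hc0, abs_of_nonneg ha] at hn
    rw [abs_of_nonneg hc0, abs_of_nonneg hb] at hm
    have h1 : a ⊓ (m • b) = 0 := inf_nsmul_zero ha hb hab m
    have h2 : (m • b) ⊓ (n • a) = 0 :=
      inf_nsmul_zero (nsmul_nonneg hb m) ha (by rw [inf_comm]; exact h1) n
    have h3 : c = 0 := le_antisymm (h2 ▸ le_inf hm hn) hc0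
    rw [← hc, h3, φzero]
  obtain ⟨u, hu0, hu⟩ := φsurj univ InO.univ
  have hbound : ∀ a, 0 ≤ a → φ a = univ → ∀ g : G, ∃ n : ℕ, g ≤ n • a := by
    intro a ha hφ g
    obtain ⟨n, hn⟩ := (φle g a).1 (hφ ▸ subset_univ _)
    rw [abs_of_nonneg ha] at hn
    exact ⟨n, (le_abs_self g).trans hn⟩
  have φnsmul : ∀ (a : G) (n : ℕ), φ (n • a) ⊆ φ a := by
    intro a n
    induction n with
    | zero => simp [φzero]
    | succ n ih =>
      rw [succ_nsmul]
      exact (φadd _ _).trans (union_subset ih subset_rfl)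
  have φsum : ∀ a b, 0 ≤ a → 0 ≤ b → φ (a + b) = φ a ∪ φ b := by
    intro a b ha hb
    exact Subset.antisymm (φadd a b) (union_subset (φmono _ _ ha (le_add_of_nonneg_right hb))
      (φmono _ _ hb (le_add_of_nonneg_left ha)))
  have hval : ∀ x : T, ∃ f : G →+ ℝ, f u = 1 ∧ ∀ g, x ∈ φ (g⁺) ↔ 0 < f g := by
    intro x
    refine holder (fun g => x ∈ φ (g⁺)) ?_ ?_ u ?_ ?_
    · intro g h h'
      have := φdisj _ _ (posPart_nonneg g) (negPart_nonneg g) (posPart_inf_negPart_eq_zero g)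
      rw [posPart_neg] at h'
      exact (this ▸ (⟨h, h'⟩ : x ∈ φ g⁺ ∩ φ g⁻) : x ∈ (∅ : Set T))
    · intro g h hx
      exact φadd _ _ (φmono _ _ (posPart_nonneg _) (posPart_add_le' g h) hx)
    · show x ∈ φ u⁺
      rw [posPart_eq_self.2 hu0, hu]; trivial
    · intro g h hx
      obtain ⟨w, hw0, hw⟩ := φsurj _ ((InO.iio x).union (InO.ioi x))
      have hxw : x ∉ φ w := by rw [hw]; simp
      have hall : φ (g⁺ + w) = univ := by
        rw [φsum _ _ (posPart_nonneg g) hw0, hw]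
        apply eq_univ_of_forall
        intro y
        rcases lt_trichotomy y x with h | h | h
        · exact Or.inr (Or.inl h)
        · exact Or.inl (h ▸ hx)
        · exact Or.inr (Or.inr h)
      obtain ⟨n, hn⟩ := hbound _ (add_nonneg (posPart_nonneg g) hw0) hall h
      refine ⟨n, fun hpos => ?_⟩
      have hle : (h - n • g)⁺ ≤ n • (g⁻ + w) := by
        rw [posPart_def]
        refine sup_le ?_ (nsmul_nonneg (add_nonneg (negPart_nonneg g) hw0) n)
        have e1 : n • (g⁻ + w) = n • (g⁺ + w) - n • g := by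
          have h' : g⁻ = g⁺ - g := by
            have := posPart_sub_negPart g
            rw [eq_sub_iff_add_eq, add_comm, ← eq_sub_iff_add_eq]
            exact this.symm
          rw [← nsmul_sub, h']
          congr 1
          abel
        rw [e1]
        exact sub_le_sub_right hn _
      have h3 := φnsmul _ n (φmono _ _ (posPart_nonneg _) hle hpos)
      rcases φadd _ _ h3 with h4 | h4
      · have := φdisj _ _ (posPart_nonneg g) (negPart_nonneg g) (posPart_inf_negPart_eq_zero g)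
        exact (this ▸ (⟨hx, h4⟩ : x ∈ φ g⁺ ∩ φ g⁻) : x ∈ (∅ : Set T))
      · exact hxw h4
  choose val hvu hval using hval
  let ev : G →+ (T → ℝ) :=
    { toFun := fun g x => val x g
      map_zero' := by ext x; simp
      map_add' := by intro a b; ext x; simp }
  have hnn : ∀ x g, 0 ≤ g → 0 ≤ val x g := by
    intro x g hg
    by_contra h
    have : 0 < val x (-g) := by rw [map_neg]; linarith
    rw [← hval, posPart_neg, negPart_eq_zero.2 hg, φzero] at this
    exact this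
  have hnn' : ∀ x g, 0 ≤ g → (0 < val x g ↔ x ∈ φ g) := by
    intro x g hg
    rw [← hval, posPart_eq_self.2 hg]
  refine ⟨⟨ev.range, ⟨u, funext fun x => hvu x⟩, ?_, ?_, ?_⟩⟩
  · rintro _ ⟨g, rfl⟩
    have : {x | 0 < ev g x} = φ (g⁺) := by
      ext x
      exact (hval x g).symm
    rw [this]
    exact φO _
  · intro a
    obtain ⟨g, hg0, hg⟩ := φsurj _ (InO.ioi a)
    refine ⟨ev g, ⟨g, rfl⟩, fun x => ⟨hnn x g hg0, ?_⟩⟩
    show 0 < val x g ↔ _
    rw [hnn' x g hg0, hg]; rfl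
  · rintro _ ⟨f, rfl⟩ a y hneg
    obtain ⟨w, hw0, hw⟩ := φsurj _ ((InO.iio a).union (InO.ioi y))
    have hall : φ (f⁻ + w) = univ := by
      rw [φsum _ _ (negPart_nonneg f) hw0, hw]
      apply eq_univ_of_forall
      intro z
      by_cases hz : z ∈ Icc a y
      · left
        rw [← posPart_neg, hval, map_neg]
        have : val z f < 0 := hneg z hz
        linarith
      · right
        simp only [mem_Icc, not_and_or, not_le] at hz
        exact hz
    obtain ⟨n, hn⟩ := hbound _ (add_nonneg (negPart_nonneg f) hw0) hall u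
    refine ⟨1 / ((n : ℝ) + 1), by positivity, fun x hx => ?_⟩
    have hfx : val x f < 0 := hneg x hx
    have h1 : 0 ≤ val x (n • (f⁻ + w) - u) := hnn _ _ (sub_nonneg.2 hn)
    have h2 : val x w = 0 := by
      apply le_antisymm _ (hnn x w hw0)
      rw [← not_lt, hnn' x w hw0, hw]
      simp only [mem_union, mem_Iio, mem_Ioi, not_or, not_lt]
      exact hx
    have h3 : val x f⁺ = 0 := by
      apply le_antisymm _ (hnn x _ (posPart_nonneg f))
      rw [← not_lt, hnn' x _ (posPart_nonneg f), hval]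
      exact not_lt.2 hfx.le
    have h4 : val x f⁻ = - val x f := by
      have := congrArg (val x) (posPart_sub_negPart f)
      rw [map_sub, h3] at this
      linarith
    rw [map_sub, map_nsmul, map_add, h2, h4, hvu, nsmul_eq_mul] at h1
    show val x f ≤ _
    rw [le_neg, div_le_iff₀ (by positivity)]
    nlinarith

end Pool.Agent.H393Z.OT
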