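import Pool.Agent.H393Z.OT.Tree
import Pool.Agent.H393Z.OT.LGroup

set_option autoImplicit false

open Set Filter

namespace Pool.Agent.H393Z.OT

/-- First time a level is reached. -/
lemma Rep.first {T : Type} [LinearOrder T] (c : FC T) (R : Rep T) {a b : T} (hab : a < b)
    (H : T → ℝ) (ha : H a = 0) (hb : 1 < H b) (v : ℝ) (hv0 : 0 < v) (hv1 : v < 1)
    (f : T → ℝ) (hf : f ∈ R.G) (j : ℝ) (hj : 0 < j) (hfH : ∀ x ∈ Icc a b, f x = j * (H x - v)) :
    ∃ p, a < p ∧ p ≤ b ∧ H p = v ∧ ∀ y ∈ Ico a p, ∃ v' < v, ∀ x ∈ Icc a y, H x ≤ v' := by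
  have hU : InO {x | 0 < (-f) x} := R.pos _ (R.G.neg_mem hf)
  have hV : InO {x | 0 < f x} := R.pos _ hf
  have haU : a ∈ {x | 0 < (-f) x} := by
    show 0 < - f a
    rw [hfH a ⟨le_rfl, hab.le⟩, ha]
    nlinarith
  have hbU : b ∉ {x | 0 < (-f) x} := by
    show ¬ 0 < - f b
    rw [hfH b ⟨hab.le, le_rfl⟩]
    nlinarith
  obtain ⟨p, hap, hpb, hpU, hsub⟩ := hU.exit c hab haU hbU
  have hpV : p ∉ {x | 0 < f x} := by
    intro h
    obtain ⟨n, hn⟩ := (hV.opn c p h).exists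
    obtain ⟨m, hm1, hm2⟩ := ((c.ev_l p a hap).and (c.ev_l p _ (c.l_lt p n))).exists
    have h1 : 0 < f (c.l p m) := hn ⟨hm2, (c.l_lt p m).trans (c.lt_r p n)⟩
    have h2 : 0 < - f (c.l p m) := hsub ⟨hm1.le, c.l_lt p m⟩
    linarith
  refine ⟨p, hap, hpb, ?_, ?_⟩
  · have h1 : ¬ 0 < - f p := hpU
    have h2 : ¬ 0 < f p := hpV
    have h3 : f p = 0 := by linarith [not_lt.1 h1, not_lt.1 h2]
    rw [hfH p ⟨hap.le, hpb⟩] at h3
    rcases mul_eq_zero.1 h3 with h | h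
    · exact absurd h hj.ne'
    · linarith
  · intro y hy
    obtain ⟨ε, hε, hbd⟩ := R.bdd f hf a y fun x hx => by
      have : 0 < - f x := hsub ⟨hx.1, lt_of_le_of_lt hx.2 hy.2⟩
      linarith
    refine ⟨v - ε / j, by have := div_pos hε hj; linarith, fun x hx => ?_⟩
    have h1 := hbd x hx
    rw [hfH x ⟨hx.1, hx.2.trans (hy.2.le.trans hpb)⟩] at h1
    have : H x - v ≤ -ε / j := by
      rw [le_div_iff₀ hj]; linarith
    rw [neg_div] at this
    linarith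

lemma Rep.rat_mem {T : Type} [LinearOrder T] (R : Rep T) {H : T → ℝ} (hH : H ∈ R.G) (r : ℚ) :
    (fun x => (r.den : ℝ) * (H x - r)) ∈ R.G := by
  have h := R.G.sub_mem (R.G.nsmul_mem hH r.den) (R.G.zsmul_mem R.one_mem r.num)
  convert h using 1
  funext x
  have : (r : ℝ) * r.den = r.num := by exact_mod_cast Rat.mul_den_eq_num r
  simp only [Pi.sub_apply, nsmul_eq_mul, zsmul_eq_mul, Pi.mul_apply,
    Pi.natCast_apply, Pi.intCast_apply, mul_one]
  rw [← this]; ring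

variable {I : Type} [LinearOrder I] [WellFoundedLT I]

/-- Values taken constantly on a cylinder. -/
def W (R : Rep (TT I)) (σ : LL I) (η : I) : Set ℝ :=
  {v | ∃ g ∈ R.G, ∀ x : TT I, (∀ ξ < η, x.1 ξ = σ ξ) → g x = v}

lemma W_mono (R : Rep (TT I)) {σ σ' : LL I} {η η' : I} (h : η ≤ η') (h' : ∀ ξ < η, σ' ξ = σ ξ) :
    W R σ η ⊆ W R σ' η' := by
  rintro v ⟨g, hg, hv⟩
  exact ⟨g, hg, fun x hx => hv x fun ξ hξ => (hx ξ (lt_of_lt_of_le hξ h)).trans (h' ξ hξ)⟩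

omit [WellFoundedLT I] in
lemma bound_countable [Nonempty I] (hI : ∀ f : ℝ → I, ∃ i, ∀ r, f r < i) (S : Set I) (hS : S.Countable) :
    ∃ i, ∀ j ∈ S, j < i := by
  rcases S.eq_empty_or_nonempty with h | h
  · exact ⟨Classical.arbitrary I, by simp [h]⟩
  · obtain ⟨g, rfl⟩ := hS.exists_eq_range h
    obtain ⟨i, hi⟩ := hI fun r => g ⌊r⌋₊
    refine ⟨i, ?_⟩
    rintro _ ⟨n, rfl⟩
    simpa using hi n

/-- Every node has an extension carrying a new constant value. -/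
lemma extend [Nonempty I] (hI : ∀ f : ℝ → I, ∃ i, ∀ r, f r < i) (R : Rep (TT I)) (σ₀ : LL I)
    (η : I) (hn : ∀ ξ < η, ¬ St (σ₀ ξ)) :
    ∃ (σ : LL I) (η' : I), (∀ ξ < η', ¬ St (σ ξ)) ∧ η < η' ∧ (∀ ξ < η, σ ξ = σ₀ ξ) ∧
      ∃ v ∈ W R σ η', v ∉ W R σ₀ η := by
  classical
  let c := fc I
  let a : TT I := ⟨trunc σ₀ η (((0 : ℚ) : ℝ) : EReal), η, trunc_stops hn 0⟩
  let b : TT I := ⟨trunc σ₀ η (((1 : ℚ) : ℝ) : EReal), η, trunc_stops hn 1⟩
  have hab : a < b := by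
    refine lt_def'.2 ⟨η, fun j hj => (trunc_lt hj).trans (trunc_lt hj).symm, ?_⟩
    simp only [a, b, trunc_self]
    exact EReal.coe_lt_coe_iff.2 (by norm_num)
  have hcyl : ∀ x : LL I, a.1 ≤ x → x ≤ b.1 → ∀ ξ < η, x ξ = σ₀ ξ := by
    intro x h1 h2 ξ hξ
    rw [convex h1 h2 (fun j hj => (trunc_lt hj).trans (trunc_lt hj).symm) ξ hξ]
    exact trunc_lt hξ
  obtain ⟨h, hhG, hh⟩ := R.ray a
  have hha : h a = 0 := le_antisymm (not_lt.1 fun h' => lt_irrefl _ ((hh a).2.1 h')) (hh a).1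
  have hhb : 0 < h b := (hh b).2.2 hab
  obtain ⟨n, hn'⟩ := exists_nat_gt (1 / h b)
  let H : TT I → ℝ := n • h
  have hHG : H ∈ R.G := R.G.nsmul_mem hhG n
  have hHa : H a = 0 := by simp [H, hha]
  have hHb : 1 < H b := by
    rw [div_lt_iff₀ hhb] at hn'
    simpa [H] using hn'
  have hp : ∀ r : ℚ, ∃ p : TT I, 0 < r → r < 1 → a < p ∧ p ≤ b ∧ H p = r ∧
      ∀ y ∈ Ico a p, ∃ v' < (r : ℝ), ∀ x ∈ Icc a y, H x ≤ v' := by
    intro r
    by_cases hr : 0 < r ∧ r < 1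
    · obtain ⟨p, hp⟩ := R.first c hab H hHa hHb r (by exact_mod_cast hr.1) (by exact_mod_cast hr.2)
        _ (R.rat_mem hHG r) r.den (by exact_mod_cast r.den_pos) (fun _ _ => rfl)
      exact ⟨p, fun _ _ => hp⟩
    · exact ⟨a, fun h1 h2 => absurd ⟨h1, h2⟩ hr⟩
  choose p hp using hp
  -- comparison of first passage points
  have hcmp : ∀ (v : ℝ) (z : TT I), (∀ y ∈ Ico a z, ∃ v' < v, ∀ x ∈ Icc a y, H x ≤ v') →
      ∀ y, a ≤ y → v ≤ H y → z ≤ y := by
    intro v z hz y hay hy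
    by_contra hlt
    obtain ⟨v', hv', hx⟩ := hz y ⟨hay, not_le.1 hlt⟩
    have := hx y ⟨hay, le_rfl⟩
    linarith
  have hmono : ∀ r r' : ℚ, 0 < r → r < r' → r' < 1 → p r < p r' := by
    intro r r' h0 hrr h1
    obtain ⟨a1, a2, a3, a4⟩ := hp r h0 (hrr.trans h1)
    obtain ⟨b1, b2, b3, b4⟩ := hp r' (h0.trans hrr) h1
    have hlt : (r : ℝ) < r' := by exact_mod_cast hrr
    refine lt_of_le_of_ne (hcmp r _ a4 _ b1.le (by rw [b3]; exact hlt.le)) fun h => ?_
    rw [h, b3] at a3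
    exact hlt.ne' a3
  let A : ℝ → Set (LL I) := fun v => {x | ∃ r : ℚ, 0 < r ∧ (r : ℝ) < v ∧ x = (p r).1}
  let d : I := η
  let Z : Set (LL I) := range fun t : ℚ × ℚ × ℚ =>
    trunc (p t.1).1 (fd (p t.1).1 (p t.2.1).1 d) ((t.2.2 : ℝ) : EReal)
  have hZ : Z.Countable := countable_range _
  have hub : ∀ v : ℝ, ∀ r : ℚ, v ≤ r → r < 1 → sSup (A v) ≤ (p r).1 := by
    intro v r hr hr1
    apply sSup_le
    rintro _ ⟨r', h0, h1, rfl⟩
    exact (hmono r' r h0 (by exact_mod_cast lt_of_lt_of_le h1 hr) hr1).le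
  have hlb : ∀ v : ℝ, ∀ r : ℚ, 0 < r → (r : ℝ) < v → (p r).1 ≤ sSup (A v) :=
    fun v r h0 h1 => le_sSup ⟨r, h0, h1, rfl⟩
  have hinj : InjOn (fun v => sSup (A v)) (Ioo 0 1) := by
    apply StrictMonoOn.injOn
    intro v hv v' hv' hvv
    obtain ⟨r1, h1, h2⟩ := exists_rat_btwn hvv
    obtain ⟨r2, h3, h4⟩ := exists_rat_btwn h2
    have h01 : 0 < r1 := by exact_mod_cast hv.1.trans h1
    have h12 : r1 < r2 := by exact_mod_cast h3
    have h21 : r2 < 1 := by exact_mod_cast h4.trans hv'.2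
    exact lt_of_le_of_lt (hub v r1 h1.le (h12.trans h21))
      (lt_of_lt_of_le (hmono r1 r2 h01 h12 h21) (hlb v' r2 (h01.trans h12) h4))
  obtain ⟨v, hv, hvZ⟩ : ∃ v ∈ Ioo (0 : ℝ) 1, sSup (A v) ∉ Z := by
    by_contra hcon
    push Not at hcon
    have : (Ioo (0 : ℝ) 1).Countable := MapsTo.countable_of_injOn hcon hinj hZ
    have h2 := Cardinal.mk_Ioo_real (zero_lt_one' ℝ)
    rw [← Cardinal.le_aleph0_iff_set_countable, h2] at this
    exact absurd this (not_le.2 Cardinal.aleph0_lt_continuum)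
  set σ := sSup (A v) with hσ
  have hbtw : ∀ t : ℝ, t < v → ∃ r : ℚ, 0 < r ∧ t < r ∧ (r : ℝ) < v ∧ r < 1 := by
    intro t ht
    obtain ⟨r, h1, h2⟩ := exists_rat_btwn (max_lt ht hv.1)
    exact ⟨r, by exact_mod_cast lt_of_le_of_lt (le_max_right _ _) h1,
      lt_of_le_of_lt (le_max_left _ _) h1, h2, by exact_mod_cast h2.trans hv.2⟩
  have hns : ∀ ξ, ¬ St (σ ξ) := by
    intro ξ hξ
    obtain ⟨_, ⟨r, -, -, rfl⟩, _, ⟨r', -, -, rfl⟩, q, hq⟩ := sSup_stop (A v)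
      (by rintro _ ⟨r, -, -, rfl⟩; exact (p r).2)
      (by
        rintro _ ⟨r, h0, h1, rfl⟩
        obtain ⟨r', h2, h3, h4, h5⟩ := hbtw r h1
        exact ⟨_, ⟨r', h2, h4, rfl⟩, hmono r r' h0 (by exact_mod_cast h3) h5⟩) ⟨ξ, hξ⟩ d
    exact hvZ ⟨(r, r', q), hq.symm⟩
  have haσ : a.1 < σ := by
    obtain ⟨r, h0, -, h2, h3⟩ := hbtw 0 hv.1
    exact lt_of_lt_of_le (hp r h0 h3).1 (hlb v r h0 h2)
  have hσb : σ ≤ b.1 := by
    apply sSup_le
    rintro _ ⟨r, h0, h1, rfl⟩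
    exact (hp r h0 (by exact_mod_cast h1.trans hv.2)).2.1
  -- finite sets for the rational levels
  have hF : ∀ r : ℚ, ∃ F : Finset (TT I), ∀ x y, x ≤ y → (∀ e ∈ F, e ∉ Icc x y) →
      (H x < r ↔ H y < r) := by
    intro r
    obtain ⟨F, hF⟩ := (R.pos _ (R.G.neg_mem (R.rat_mem hHG r))).fin
    refine ⟨F, fun x y hxy hav => ?_⟩
    have hden : (0 : ℝ) < r.den := by exact_mod_cast r.den_pos
    have key : ∀ z, (0 < -((r.den : ℝ) * (H z - r))) ↔ H z < r := by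
      intro z
      rw [neg_pos, mul_neg_iff]
      constructor
      · rintro (⟨-, h⟩ | ⟨h, -⟩)
        · linarith
        · linarith
      · intro h
        exact Or.inl ⟨hden, by linarith⟩
    rw [← key, ← key]
    exact hF x y hxy hav
  choose F hF using hF
  let E : Set (TT I) := range p ∪ ⋃ r, (F r : Set (TT I))
  have hE : E.Countable := (countable_range p).union
    (countable_iUnion fun r => (F r).countable_toSet)
  obtain ⟨η', hη'⟩ := bound_countable hI (insert η (ht '' E)) ((hE.image _).insert _)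
  have hηη : η < η' := hη' η (mem_insert _ _)
  have hEη : ∀ e ∈ E, ht e < η' := fun e he => hη' _ (mem_insert_of_mem _ ⟨e, he, rfl⟩)
  have htail : ∀ ξ, η' ≤ ξ → σ ξ = ⊥ := by
    apply sSup_tail
    rintro _ ⟨r, -, -, rfl⟩ ξ hξ
    exact (ht_spec (p r)).2.2 ξ (lt_of_lt_of_le (hEη _ (Or.inl ⟨r, rfl⟩)) hξ)
  refine ⟨σ, η', fun ξ _ => hns ξ, hηη, hcyl σ haσ.le hσb, v, ⟨H, hHG, ?_⟩, ?_⟩
  · intro z hz
    have hσz : σ ≤ z.1 := by
      by_contra hlt
      obtain ⟨i, -, hi2⟩ := lt_def'.1 (not_le.1 hlt)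
      by_cases hi : i < η'
      · rw [hz i hi] at hi2; exact lt_irrefl _ hi2
      · rw [htail i (not_lt.1 hi)] at hi2; exact not_lt_bot hi2
    have hdich : ∀ e ∈ E, e.1 < σ ∨ z < e := by
      intro e he
      rcases lt_trichotomy e.1 σ with h | h | h
      · exact Or.inl h
      · exact absurd (h ▸ (ht_spec e).2.1) (hns (ht e))
      · right
        obtain ⟨i, hi1, hi2⟩ := lt_def'.1 h
        have hi : i < η' := by
          by_contra hi
          have := hi1 (ht e) (lt_of_lt_of_le (hEη e he) (not_lt.1 hi))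
          exact hns (ht e) (this ▸ (ht_spec e).2.1)
        refine lt_def'.2 ⟨i, fun j hj => (hz j (hj.trans hi)).trans (hi1 j hj), ?_⟩
        rw [hz i hi]; exact hi2
    have haz : a ≤ z := haσ.le.trans hσz
    apply le_antisymm
    · by_contra hlt
      obtain ⟨r, h1, h2⟩ := exists_rat_btwn (lt_min (not_le.1 hlt) hv.2)
      have hr0 : 0 < r := by exact_mod_cast hv.1.trans h1
      have hr1 : r < 1 := by exact_mod_cast lt_of_lt_of_le h2 (min_le_right _ _)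
      have h3 := hcmp r _ (hp r hr0 hr1).2.2.2 z haz (lt_of_lt_of_le h2 (min_le_left _ _)).le
      rcases hdich (p r) (Or.inl ⟨r, rfl⟩) with h | h
      · exact absurd (hub v r h1.le hr1) (not_le.2 h)
      · exact absurd h3 (not_le.2 h)
    · by_contra hlt
      obtain ⟨r, h0, h1, h2, h3⟩ := hbtw (H z) (not_le.1 hlt)
      have hex : ∃ r' : ℚ, r ≤ r' ∧ (r' : ℝ) < v ∧ ∀ e ∈ F r, e.1 < σ → e < p r' := by
        have : ∀ S : Finset (TT I), ∃ r' : ℚ, r ≤ r' ∧ (r' : ℝ) < v ∧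
            ∀ e ∈ S, e.1 < σ → e < p r' := by
          intro S
          induction S using Finset.induction_on with
          | empty => exact ⟨r, le_rfl, h2, by simp⟩
          | insert e S _ ih =>
            obtain ⟨r', g1, g2, g3⟩ := ih
            by_cases he : e.1 < σ
            · obtain ⟨_, ⟨r'', k0, k1, rfl⟩, k2⟩ := lt_sSup_iff.1 he
              obtain ⟨s, s0, s1, s2, s3⟩ := hbtw (max (r' : ℝ) r'') (max_lt g2 k1)
              have t1 : r' < s := by exact_mod_cast lt_of_le_of_lt (le_max_left _ _) s1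
              have t2 : r'' < s := by exact_mod_cast lt_of_le_of_lt (le_max_right _ _) s1
              refine ⟨s, g1.trans t1.le, s2, fun e' he' hlt' => ?_⟩
              rcases Finset.mem_insert.1 he' with k | k
              · rw [k]; exact lt_trans k2 (hmono r'' s k0 t2 s3)
              · exact (g3 e' k hlt').trans (hmono r' s (lt_of_lt_of_le h0 g1) t1 s3)
            · refine ⟨r', g1, g2, fun e' he' hlt' => ?_⟩
              rcases Finset.mem_insert.1 he' with k | k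
              · exact absurd (k ▸ hlt') he
              · exact g3 e' k hlt'
        exact this (F r)
      obtain ⟨r', g1, g2, g3⟩ := hex
      have g0 : 0 < r' := lt_of_lt_of_le h0 g1
      have g4 : r' < 1 := by exact_mod_cast g2.trans hv.2
      have hle : p r' ≤ z := (hlb v r' g0 g2).trans hσz
      have := (hF r (p r') z hle fun e he hI' => ?_).2 h1
      · rw [(hp r' g0 g4).2.2.1] at this
        exact absurd this (not_lt.2 (by exact_mod_cast g1))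
      · rcases hdich e (Or.inr (mem_iUnion.2 ⟨r, he⟩)) with h | h
        · exact absurd hI'.1 (not_le.2 (g3 e he h))
        · exact absurd hI'.2 (not_le.2 h)
  · rintro ⟨g, hg, hgv⟩
    obtain ⟨z, z1, z2, z3, z4⟩ := R.first c hab H hHa hHb v hv.1 hv.2 (H - g) (R.G.sub_mem hHG hg)
      1 one_pos (fun x hx => by
        rw [Pi.sub_apply, hgv x (hcyl x.1 hx.1 hx.2), one_mul])
    have h1 : σ ≤ z.1 := by
      apply sSup_le
      rintro _ ⟨r, h0, h1, rfl⟩
      exact hcmp r _ (hp r h0 (by exact_mod_cast h1.trans hv.2)).2.2.2 z z1.le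
        (by rw [z3]; exact h1.le)
    rcases eq_or_lt_of_le h1 with h | h
    · exact hns (ht z) (h ▸ (ht_spec z).2.1)
    · obtain ⟨m, hm⟩ := (ev_l' z σ h).exists
      have hy : c.l z m ∈ Ico a z := ⟨(haσ.trans hm).le, c.l_lt z m⟩
      obtain ⟨v', hv', hx⟩ := z4 _ hy
      obtain ⟨r, h0, h2, h3, h4⟩ := hbtw v' hv'
      have := hx (p r) ⟨(hp r h0 h4).1.le, ((hlb v r h0 h3).trans hm.le)⟩
      rw [(hp r h0 h4).2.2.1] at this
      linarith

/-- No group of functions exists on the tree chain. -/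
theorem no_rep [Nonempty I] (hI : ∀ f : ℝ → I, ∃ i, ∀ r, f r < i) : IsEmpty (Rep (TT I)) := by
  classical
  refine ⟨fun R => ?_⟩
  let N := {s : LL I × I // ∀ ξ < s.2, ¬ St (s.1 ξ)}
  let lt : N → N → Prop := fun s t => s.1.2 < t.1.2 ∧ (∀ ξ < s.1.2, t.1.1 ξ = s.1.1 ξ) ∧
    ∃ v ∈ W R t.1.1 t.1.2, v ∉ W R s.1.1 s.1.2
  let rel : N → N → Prop := fun s t => s = t ∨ lt s t
  have hext : ∀ s : N, ∃ t : N, lt s t := by
    intro s
    obtain ⟨σ, η', h1, h2, h3, h4⟩ := extend hI R s.1.1 s.1.2 s.2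
    exact ⟨⟨(σ, η'), h1⟩, h2, h3, h4⟩
  have htrans : ∀ {s t u : N}, rel s t → rel t u → rel s u := by
    rintro s t u (rfl | h1) h2
    · exact h2
    rcases h2 with rfl | h2
    · exact Or.inr h1
    obtain ⟨a1, a2, v, a3, a4⟩ := h1
    obtain ⟨b1, b2, -⟩ := h2
    exact Or.inr ⟨a1.trans b1, fun ξ hξ => (b2 ξ (hξ.trans a1)).trans (a2 ξ hξ), v,
      W_mono R b1.le b2 a3, a4⟩
  suffices hchain : ∀ C : Set N, IsChain rel C → ∃ ub, ∀ a ∈ C, rel a ub by
    obtain ⟨m, hm⟩ := exists_maximal_of_chains_bounded (r := rel) hchain htrans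
    obtain ⟨t, ht⟩ := hext m
    rcases hm t (Or.inr ht) with h | h
    · rw [h] at ht; exact lt_irrefl _ ht.1
    · exact lt_asymm h.1 ht.1
  intro C hC
  have hch : ∀ v : ℝ, ∃ i : I, (∃ s ∈ C, v ∈ W R s.1.1 s.1.2) →
      ∃ s ∈ C, v ∈ W R s.1.1 s.1.2 ∧ s.1.2 = i := by
    intro v
    by_cases h : ∃ s ∈ C, v ∈ W R s.1.1 s.1.2
    · obtain ⟨s, hs, hv⟩ := h
      exact ⟨s.1.2, fun _ => ⟨s, hs, hv, rfl⟩⟩
    · exact ⟨Classical.arbitrary I, fun h' => absurd h' h⟩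
  choose f hf using hch
  obtain ⟨i₀, hi₀⟩ := hI f
  by_cases hbig : ∃ s ∈ C, i₀ ≤ s.1.2
  · obtain ⟨s, hs, hsi⟩ := hbig
    refine ⟨s, fun t ht => ?_⟩
    by_cases hts : t = s
    · exact Or.inl hts
    rcases hC ht hs hts with h | h
    · exact h
    rcases h with h | h
    · exact Or.inl h.symm
    exfalso
    obtain ⟨-, -, v, a3, a4⟩ := h
    obtain ⟨u, hu, hv, hui⟩ := hf v ⟨t, ht, a3⟩
    have hlt : u.1.2 < s.1.2 := by rw [hui]; exact lt_of_lt_of_le (hi₀ v) hsi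
    have hus : u ≠ s := fun h => by rw [h] at hlt; exact lt_irrefl _ hlt
    rcases hC hu hs hus with h | h
    · rcases h with h | h
      · exact hus h
      · exact a4 (W_mono R h.1.le h.2.1 hv)
    · rcases h with h | h
      · exact hus h.symm
      · exact lt_asymm h.1 hlt
  · push Not at hbig
    let σ : LL I := toLex fun ξ => if h : ∃ s ∈ C, ξ < s.1.2 then h.choose.1.1 ξ else ⊥
    have hσ : ∀ s ∈ C, ∀ ξ < s.1.2, σ ξ = s.1.1 ξ := by
      intro s hs ξ hξ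
      have h : ∃ s ∈ C, ξ < s.1.2 := ⟨s, hs, hξ⟩
      have e1 : σ ξ = h.choose.1.1 ξ := by simp only [σ, Pi.toLex_apply, dif_pos h]
      rw [e1]
      obtain ⟨g1, g2⟩ := h.choose_spec
      by_cases hh : h.choose = s
      · rw [hh]
      rcases hC g1 hs hh with k | k
      · rcases k with k | k
        · exact absurd k hh
        · exact (k.2.1 ξ g2).symm
      · rcases k with k | k
        · exact absurd k.symm hh
        · exact k.2.1 ξ hξ
    have hnode : ∀ ξ < i₀, ¬ St (σ ξ) := by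
      intro ξ _
      by_cases h : ∃ s ∈ C, ξ < s.1.2
      · obtain ⟨s, hs, hξ⟩ := h
        rw [hσ s hs ξ hξ]
        exact s.2 ξ hξ
      · have e1 : σ ξ = ⊥ := by simp only [σ, Pi.toLex_apply, dif_neg h]
        rw [e1]; exact not_St_bot
    obtain ⟨t, a1, a2, v, a3, a4⟩ := hext ⟨(σ, i₀), hnode⟩
    refine ⟨t, fun s hs => Or.inr ⟨(hbig s hs).trans a1, fun ξ hξ => ?_, v, a3, fun hv => a4 ?_⟩⟩
    · exact (a2 ξ (hξ.trans (hbig s hs))).trans (hσ s hs ξ hξ)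
    · exact W_mono R (hbig s hs).le (hσ s hs) hv

end Pool.Agent.H393Z.OT
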