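import Pool.Agent.H393Z.OT.Basic

set_option autoImplicit false

open Set Filter

namespace Pool.Agent.H393Z.OT

/-- Stopping letters: the rationals. -/
def St (c : EReal) : Prop := ∃ q : ℚ, c = ((q : ℝ) : EReal)

lemma not_St_bot : ¬ St ⊥ := by
  rintro ⟨q, hq⟩
  exact EReal.bot_ne_coe _ hq

variable {I : Type} [LinearOrder I] [WellFoundedLT I]

/-- The complete lexicographic power. -/
abbrev LL (I : Type) := Πₗ _ : I, EReal

/-- `x` stops at height `β`. -/
def Stops (x : LL I) (β : I) : Prop :=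
  (∀ ξ < β, ¬ St (x ξ)) ∧ St (x β) ∧ ∀ ξ, β < ξ → x ξ = ⊥

/-- The chain. -/
abbrev TT (I : Type) [LinearOrder I] := {x : LL I // ∃ β, Stops x β}

open Classical in
/-- Truncation. -/
noncomputable def trunc (σ : LL I) (β : I) (c : EReal) : LL I :=
  toLex fun ξ => if ξ < β then σ ξ else if ξ = β then c else ⊥

omit [WellFoundedLT I] in
lemma trunc_lt {σ : LL I} {β ξ : I} {c : EReal} (h : ξ < β) : trunc σ β c ξ = σ ξ := by
  simp [trunc, h]

omit [WellFoundedLT I] in
lemma trunc_self {σ : LL I} {β : I} {c : EReal} : trunc σ β c β = c := by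
  simp [trunc]

omit [WellFoundedLT I] in
lemma trunc_gt {σ : LL I} {β ξ : I} {c : EReal} (h : β < ξ) : trunc σ β c ξ = ⊥ := by
  simp [trunc, h.not_gt, h.ne']

omit [WellFoundedLT I] in
lemma lt_def' {x y : LL I} : x < y ↔ ∃ i, (∀ j < i, x j = y j) ∧ x i < y i := Iff.rfl

omit [WellFoundedLT I] in
lemma trunc_stops {σ : LL I} {β : I} (h : ∀ ξ < β, ¬ St (σ ξ)) (q : ℚ) :
    Stops (trunc σ β ((q : ℝ) : EReal)) β :=
  ⟨fun ξ hξ => by rw [trunc_lt hξ]; exact h ξ hξ, by rw [trunc_self]; exact ⟨q, rfl⟩,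
    fun _ hξ => trunc_gt hξ⟩

omit [WellFoundedLT I] in
lemma Stops.unique {x : LL I} {β γ : I} (h : Stops x β) (h1 : ∀ ξ < γ, ¬ St (x ξ))
    (h2 : St (x γ)) : β = γ := by
  rcases lt_trichotomy β γ with h' | h' | h'
  · exact absurd h.2.1 (h1 β h')
  · exact h'
  · exact absurd h2 (h.1 γ h')

/-- Convexity of cylinders. -/
lemma convex {a b x : LL I} {η : I} (hax : a ≤ x) (hxb : x ≤ b) (hab : ∀ ξ < η, a ξ = b ξ) :
    ∀ ξ < η, x ξ = a ξ := by
  intro ξ
  induction ξ using WellFoundedLT.induction with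
  | ind ξ ih =>
    intro hξ
    have h1 : ∀ j < ξ, x j = a j := fun j hj => ih j hj (hj.trans hξ)
    apply le_antisymm
    · rw [hab ξ hξ]
      exact Pi.apply_le_of_toLex (x := ofLex x) (y := ofLex b) hxb
        fun j hj => (h1 j hj).trans (hab j (hj.trans hξ))
    · exact Pi.apply_le_of_toLex (x := ofLex a) (y := ofLex x) hax fun j hj => (h1 j hj).symm

lemma ev_sub (q : ℚ) (c : EReal) (h : c < ((q : ℝ) : EReal)) :
    ∀ᶠ n : ℕ in atTop, c < (((q - 1 / ((n : ℚ) + 1) : ℚ) : ℝ) : EReal) := by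
  obtain ⟨t, ht1, ht2⟩ := EReal.lt_iff_exists_real_btwn.1 h
  have ht : t < q := EReal.coe_lt_coe_iff.1 ht2
  have := tendsto_one_div_add_atTop_nhds_zero_nat (𝕜 := ℝ)
  filter_upwards [this.eventually_lt_const (sub_pos.2 ht)] with n hn
  refine ht1.trans (EReal.coe_lt_coe_iff.2 ?_)
  push_cast
  linarith

lemma ev_add (q : ℚ) (c : EReal) (h : ((q : ℝ) : EReal) < c) :
    ∀ᶠ n : ℕ in atTop, (((q + 1 / ((n : ℚ) + 1) : ℚ) : ℝ) : EReal) < c := by
  obtain ⟨t, ht1, ht2⟩ := EReal.lt_iff_exists_real_btwn.1 h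
  have ht : (q : ℝ) < t := EReal.coe_lt_coe_iff.1 ht1
  have := tendsto_one_div_add_atTop_nhds_zero_nat (𝕜 := ℝ)
  filter_upwards [this.eventually_lt_const (sub_pos.2 ht)] with n hn
  refine lt_trans (EReal.coe_lt_coe_iff.2 ?_) ht2
  push_cast
  linarith

/-- Height of a point. -/
noncomputable def ht (x : TT I) : I := x.2.choose
omit [WellFoundedLT I] in
lemma ht_spec (x : TT I) : Stops x.1 (ht x) := x.2.choose_spec
/-- Last letter of a point. -/
noncomputable def lastq (x : TT I) : ℚ := (ht_spec x).2.1.choose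
omit [WellFoundedLT I] in
lemma lastq_spec (x : TT I) : x.1 (ht x) = ((lastq x : ℝ) : EReal) := (ht_spec x).2.1.choose_spec

/-- Change of the last letter. -/
noncomputable def shift (x : TT I) (q : ℚ) : TT I :=
  ⟨trunc x.1 (ht x) ((q : ℝ) : EReal), ht x, trunc_stops (ht_spec x).1 q⟩

omit [WellFoundedLT I] in
lemma ev_l' (x : TT I) (y : LL I) (h : y < x.1) :
    ∀ᶠ n : ℕ in atTop, y < (shift x (lastq x - 1 / ((n : ℚ) + 1))).1 := by
  obtain ⟨i, h1, h2⟩ := lt_def'.1 h
  rcases lt_trichotomy i (ht x) with hi | hi | hi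
  · refine Eventually.of_forall fun n => lt_def'.2 ⟨i, fun j hj => ?_, ?_⟩
    · simp only [shift]; rw [trunc_lt (hj.trans hi)]; exact h1 j hj
    · simp only [shift]; rw [trunc_lt hi]; exact h2
  · subst hi
    rw [lastq_spec] at h2
    filter_upwards [ev_sub _ _ h2] with n hn
    refine lt_def'.2 ⟨ht x, fun j hj => ?_, ?_⟩
    · simp only [shift]; rw [trunc_lt hj]; exact h1 j hj
    · simp only [shift]; rw [trunc_self]; exact hn
  · rw [(ht_spec x).2.2 i hi] at h2
    exact absurd h2 not_lt_bot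

/-- The chain has countable character at each point. -/
noncomputable def fc (I : Type) [LinearOrder I] [WellFoundedLT I] : FC (TT I) where
  l x n := shift x (lastq x - 1 / ((n : ℚ) + 1))
  r x n := shift x (lastq x + 1 / ((n : ℚ) + 1))
  l_lt x n := by
    refine lt_def'.2 ⟨ht x, fun j hj => trunc_lt hj, ?_⟩
    simp only [shift]
    rw [trunc_self, lastq_spec, EReal.coe_lt_coe_iff]
    push_cast
    have : (0 : ℝ) < 1 / ((n : ℝ) + 1) := by positivity
    linarith
  lt_r x n := by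
    refine lt_def'.2 ⟨ht x, fun j hj => (trunc_lt hj).symm, ?_⟩
    simp only [shift]
    rw [trunc_self, lastq_spec, EReal.coe_lt_coe_iff]
    push_cast
    have : (0 : ℝ) < 1 / ((n : ℝ) + 1) := by positivity
    linarith
  ev_l x y h := ev_l' x y.1 h
  ev_r x y h := by
    obtain ⟨i, h1, h2⟩ := lt_def'.1 (show x.1 < y.1 from h)
    rcases lt_trichotomy i (ht x) with hi | hi | hi
    · refine Eventually.of_forall fun n => lt_def'.2 ⟨i, fun j hj => ?_, ?_⟩
      · simp only [shift]; rw [trunc_lt (hj.trans hi)]; exact h1 j hj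
      · simp only [shift]; rw [trunc_lt hi]; exact h2
    · subst hi
      rw [lastq_spec] at h2
      filter_upwards [ev_add _ _ h2] with n hn
      refine lt_def'.2 ⟨ht x, fun j hj => ?_, ?_⟩
      · simp only [shift]; rw [trunc_lt hj]; exact h1 j hj
      · simp only [shift]; rw [trunc_self]; exact hn
    · have : ht y = ht x := (ht_spec y).unique
        (fun ξ hξ => by rw [← h1 ξ (hξ.trans hi)]; exact (ht_spec x).1 ξ hξ)
        (by rw [← h1 _ hi]; exact (ht_spec x).2.1)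
      rw [(ht_spec y).2.2 i (this ▸ hi)] at h2
      exact absurd h2 not_lt_bot

/-- The supremum of a set of points of bounded height vanishes above the bound. -/
lemma sSup_tail (A : Set (LL I)) (ξ₀ : I) (hA : ∀ x ∈ A, ∀ ξ, ξ₀ ≤ ξ → x ξ = ⊥) :
    ∀ ξ, ξ₀ ≤ ξ → sSup A ξ = ⊥ := by
  have h1 : sSup A ≤ trunc (sSup A) ξ₀ ⊥ := by
    apply sSup_le
    intro x hx
    by_contra h
    obtain ⟨i, hi1, hi2⟩ := lt_def'.1 (not_le.1 h)
    by_cases hi : i < ξ₀
    · refine absurd (le_sSup hx) (not_le.2 (lt_def'.2 ⟨i, fun j hj => ?_, ?_⟩))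
      · rw [← hi1 j hj, trunc_lt (hj.trans hi)]
      · rwa [trunc_lt hi] at hi2
    · rw [hA x hx i (not_lt.1 hi)] at hi2
      exact absurd hi2 not_lt_bot
  have h2 : trunc (sSup A) ξ₀ ⊥ ≤ sSup A := by
    by_contra h
    obtain ⟨i, -, hi2⟩ := lt_def'.1 (not_le.1 h)
    rcases lt_trichotomy i ξ₀ with hi | hi | hi
    · rw [trunc_lt hi] at hi2; exact lt_irrefl _ hi2
    · rw [hi, trunc_self] at hi2; exact absurd hi2 not_lt_bot
    · rw [trunc_gt hi] at hi2; exact absurd hi2 not_lt_bot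
  intro ξ hξ
  rw [le_antisymm h1 h2]
  rcases eq_or_lt_of_le hξ with h | h
  · rw [← h, trunc_self]
  · exact trunc_gt h

open Classical in
/-- First difference of two words. -/
noncomputable def fd (x y : LL I) (d : I) : I :=
  if h : ∃ β, (∀ j < β, x j = y j) ∧ x β ≠ y β then h.choose else d

omit [WellFoundedLT I] in
lemma fd_eq {x y : LL I} {β : I} (d : I) (h1 : ∀ j < β, x j = y j) (h2 : x β ≠ y β) :
    fd x y d = β := by
  have h : ∃ β, (∀ j < β, x j = y j) ∧ x β ≠ y β := ⟨β, h1, h2⟩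
  rw [fd, dif_pos h]
  obtain ⟨h3, h4⟩ := h.choose_spec
  rcases lt_trichotomy h.choose β with h' | h' | h'
  · exact absurd (h1 _ h') h4
  · exact h'
  · exact absurd (h3 _ h') h2

/-- A supremum with a stopping letter is determined by two members of the set. -/
lemma sSup_stop (A : Set (LL I)) (hA : ∀ x ∈ A, ∃ β, Stops x β)
    (hmax : ∀ x ∈ A, ∃ y ∈ A, x < y) (hst : ∃ β, St (sSup A β)) (d : I) :
    ∃ x ∈ A, ∃ y ∈ A, ∃ q : ℚ, sSup A = trunc x (fd x y d) ((q : ℝ) : EReal) := by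
  set σ := sSup A with hσ
  let β := wellFounded_lt.min {β | St (σ β)} hst
  have hβ : St (σ β) := wellFounded_lt.min_mem {β | St (σ β)} hst
  have hβ' : ∀ ξ < β, ¬ St (σ ξ) := fun ξ hξ h => wellFounded_lt.not_lt_min {β | St (σ β)} h hξ
  obtain ⟨q, hq⟩ := hβ
  have h1 : σ ≤ trunc σ β ((q : ℝ) : EReal) := by
    apply sSup_le
    intro x hx
    by_contra h
    obtain ⟨i, hi1, hi2⟩ := lt_def'.1 (not_le.1 h)
    have hagree : ∀ j ≤ β, trunc σ β ((q : ℝ) : EReal) j = σ j := by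
      intro j hj
      rcases eq_or_lt_of_le hj with h | h
      · rw [h, trunc_self, hq]
      · exact trunc_lt h
    by_cases hi : i ≤ β
    · refine absurd (le_sSup hx) (not_le.2 (lt_def'.2 ⟨i, fun j hj => ?_, ?_⟩))
      · rw [← hi1 j hj, hagree j (hj.le.trans hi)]
      · rwa [hagree i hi] at hi2
    · have hi := not_le.1 hi
      obtain ⟨γ, hγ⟩ := hA x hx
      have : γ = β := hγ.unique
        (fun ξ hξ => by rw [← hi1 ξ (hξ.trans hi), trunc_lt hξ]; exact hβ' ξ hξ)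
        (by rw [← hi1 β hi, trunc_self]; exact ⟨q, rfl⟩)
      rw [hγ.2.2 i (this ▸ hi)] at hi2
      exact absurd hi2 not_lt_bot
  have h2 : trunc σ β ((q : ℝ) : EReal) ≤ σ := by
    by_contra h
    obtain ⟨i, -, hi2⟩ := lt_def'.1 (not_le.1 h)
    rcases lt_trichotomy i β with hi | hi | hi
    · rw [trunc_lt hi] at hi2; exact lt_irrefl _ hi2
    · rw [hi, trunc_self, hq] at hi2; exact lt_irrefl _ hi2
    · rw [trunc_gt hi] at hi2; exact absurd hi2 not_lt_bot
  have h3 : σ = trunc σ β ((q : ℝ) : EReal) := le_antisymm h1 h2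
  have key : ∀ c : EReal, c < ((q : ℝ) : EReal) →
      ∃ x ∈ A, (∀ j < β, x j = σ j) ∧ c ≤ x β ∧ x β < ((q : ℝ) : EReal) := by
    intro c hc
    have hz : trunc σ β c < σ :=
      lt_def'.2 ⟨β, fun j hj => trunc_lt hj, by rw [trunc_self, hq]; exact hc⟩
    obtain ⟨x, hx, hzx⟩ := lt_sSup_iff.1 hz
    obtain ⟨y, hy, hxy⟩ := hmax x hx
    have hxσ : x < σ := lt_of_lt_of_le hxy (le_sSup hy)
    have hag : ∀ j < β, x j = σ j := by
      intro j hj
      rw [convex hzx.le hxσ.le (fun ξ hξ => trunc_lt hξ) j hj, trunc_lt hj]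
    refine ⟨x, hx, hag, ?_, ?_⟩
    · have := Pi.apply_le_of_toLex (x := ofLex (trunc σ β c)) (y := ofLex x) (i := β) hzx.le
        fun j hj => (trunc_lt hj).trans (hag j hj).symm
      simpa [trunc_self] using this
    · obtain ⟨i, hi1, hi2⟩ := lt_def'.1 hxσ
      rcases lt_trichotomy i β with hi | hi | hi
      · rw [hag i hi] at hi2; exact absurd hi2 (lt_irrefl _)
      · rw [hi, hq] at hi2; exact hi2
      · rw [h3, trunc_gt hi] at hi2; exact absurd hi2 not_lt_bot
  obtain ⟨x, hx, hx1, -, hx3⟩ := key ⊥ (EReal.bot_lt_coe _)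
  obtain ⟨c, hc1, hc2⟩ := exists_between hx3
  obtain ⟨y, hy, hy1, hy2, -⟩ := key c hc2
  refine ⟨x, hx, y, hy, q, ?_⟩
  rw [fd_eq d (fun j hj => (hx1 j hj).trans (hy1 j hj).symm) (lt_of_lt_of_le hc1 hy2).ne, h3]
  unfold trunc
  congr 1
  funext ξ
  by_cases h : ξ < β
  · simp [h, hx1 ξ h]
  · simp [h]

end Pool.Agent.H393Z.OT
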